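import Pool.Agent.Lib_MP_4d7355_co.GraphBounds

/-!
# MP_4d7355_co: the Merino-Welsh inequality outside a window of densities
-/

namespace Pool.Agent.Results.MP_4d7355_co.DensityThresholds

open Pool.Agent.MW

theorem ratio_pow : ((3 + 2 * √2) / 2) ^ 81 ≤ (2 : ℝ) ^ 125 := by
  have h2 : √2 ^ 2 = 2 := Real.sq_sqrt (by norm_num)
  have h20 : 0 ≤ √2 := Real.sqrt_nonneg 2
  have h3 : √2 ≤ 1.4143 := by
    by_contra hneg
    push Not at hneg
    nlinarith
  have h4 : (3 + 2 * √2) / 2 ≤ 2.9143 := by linarith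
  calc ((3 + 2 * √2) / 2) ^ 81 ≤ 2.9143 ^ 81 := pow_le_pow_left₀ (by positivity) h4 _
    _ ≤ 2 ^ 125 := by norm_num

theorem pow_aux {k r : ℕ} (h : 125 * k ≤ 81 * r) :
    (3 + 2 * √2) ^ k ≤ (2 : ℝ) ^ (r + k) := by
  have h20 : 0 ≤ √2 := Real.sqrt_nonneg 2
  have h1 : 1 ≤ (3 + 2 * √2) / 2 := by linarith
  have h2 : (((3 + 2 * √2) / 2) ^ k) ^ 125 ≤ ((2 : ℝ) ^ r) ^ 125 := by
    rw [← pow_mul, ← pow_mul, mul_comm k 125, mul_comm r 125]
    calc ((3 + 2 * √2) / 2) ^ (125 * k) ≤ ((3 + 2 * √2) / 2) ^ (81 * r) :=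
          pow_le_pow_right₀ h1 h
      _ = (((3 + 2 * √2) / 2) ^ 81) ^ r := by rw [pow_mul]
      _ ≤ ((2 : ℝ) ^ 125) ^ r := pow_le_pow_left₀ (by positivity) ratio_pow _
      _ = 2 ^ (125 * r) := by rw [pow_mul]
  have h3 : ((3 + 2 * √2) / 2) ^ k ≤ (2 : ℝ) ^ r :=
    (pow_le_pow_iff_left₀ (by positivity) (by positivity) (by norm_num)).1 h2
  have h4 : (3 + 2 * √2) ^ k = ((3 + 2 * √2) / 2) ^ k * 2 ^ k := by
    rw [← mul_pow]
    congr 1
    ring
  rw [h4, pow_add]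
  exact mul_le_mul_of_nonneg_right h3 (by positivity)

/-- the primal inequality for a rank function -/
theorem primal {m : ℕ} (R : RankFn (Fin m)) (hl : ∀ i, R.r {i} = 1)
    (h : (3 + 2 * √2) ^ (m - R.r Finset.univ) ≤ (2 : ℝ) ^ m) : TT R 1 1 ≤ TT R 2 0 := by
  have h2 : √2 ^ 2 = 2 := Real.sq_sqrt (by norm_num)
  have h20 : 0 ≤ √2 := Real.sqrt_nonneg 2
  have h21 : 1 ≤ √2 := by
    by_contra hneg
    push Not at hneg
    nlinarith
  have h1 := loopless_bound R hl (b := 2) (by norm_num)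
  rw [Fintype.card_fin] at h1
  have h3 : ((1 + √2) ^ (m - R.r Finset.univ)) ^ 2 ≤ ((√2) ^ m) ^ 2 := by
    rw [← pow_mul, ← pow_mul, mul_comm _ 2, mul_comm _ 2, pow_mul, pow_mul, h2]
    have e1 : (1 + √2) ^ 2 = 3 + 2 * √2 := by nlinarith
    rw [e1]
    exact h
  have h4 : (1 + √2) ^ (m - R.r Finset.univ) ≤ (√2) ^ m :=
    (pow_le_pow_iff_left₀ (by positivity) (by positivity) (by norm_num)).1 h3
  have h5 : (1 + √2) ^ (m - R.r Finset.univ) * TT R 2 0 ≤ (√2) ^ m * TT R 2 0 :=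
    mul_le_mul_of_nonneg_right h4 (TT_nonneg R (by norm_num))
  have h6 := h1.trans h5
  have h7 : 0 < (√2) ^ m := by positivity
  have h8 := le_of_mul_le_mul_left h6 h7
  exact (TT_one_le R h21).trans h8

/-- Let `G` be a finite multigraph with `m` edges and rank `r` (number of vertices minus number of
components), without loops and without bridges. If `(3 + 2√2) ^ (m - r) ≤ 2 ^ m` then
`T(G; 1, 1) ≤ T(G; 2, 0)`; if `(3 + 2√2) ^ r ≤ 2 ^ m` then `T(G; 1, 1) ≤ T(G; 0, 2)`.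
In particular the Merino-Welsh inequality holds if `m ≤ 1.648 r` or `m ≥ (206 / 81) r`. -/
theorem result :
    ∀ (n m : ℕ) (e : Fin m → Fin n × Fin n) (c : Finset (Fin m) → ℕ) (T : ℤ → ℤ → ℤ),
      (∀ A : Finset (Fin m),
        c A = Nat.card (SimpleGraph.fromRel (fun a b : Fin n => ∃ j ∈ A, e j = (a, b))).ConnectedComponent) →
      (∀ x y : ℤ, T x y = ∑ A ∈ (Finset.univ : Finset (Fin m)).powerset,
        (x - 1) ^ ((n - c Finset.univ) - (n - c A)) * (y - 1) ^ (A.card - (n - c A))) →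
      (∀ i : Fin m, (e i).1 ≠ (e i).2) →
      (∀ i : Fin m, c (Finset.univ.erase i) = c Finset.univ) →
      ((3 + 2 * √2) ^ (m - (n - c Finset.univ)) ≤ (2 : ℝ) ^ m → T 1 1 ≤ T 2 0) ∧
      ((3 + 2 * √2) ^ (n - c Finset.univ) ≤ (2 : ℝ) ^ m → T 1 1 ≤ T 0 2) ∧
      (125 * m ≤ 206 * (n - c Finset.univ) ∨ 206 * (n - c Finset.univ) ≤ 81 * m →
        T 1 1 ≤ max (T 2 0) (T 0 2)) := by
  intro n m e c T hc hT hl hbr
  have hT' := T_int e c T hc hT
  have hr := exp_eq e c hc Finset.univ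
  have h6 : (grank e).r Finset.univ ≤ m := by
    have := (grank e).le_card Finset.univ
    rwa [Finset.card_univ, Fintype.card_fin] at this
  have p1 : (3 + 2 * √2) ^ (m - (n - c Finset.univ)) ≤ (2 : ℝ) ^ m → T 1 1 ≤ T 2 0 := by
    intro h
    rw [hr] at h
    have h1 := primal (grank e) (fun i => grank_single e (hl i)) h
    have h2 : ((T 1 1 : ℤ) : ℝ) ≤ ((T 2 0 : ℤ) : ℝ) := by
      rw [hT', hT']
      push_cast
      exact h1
    exact_mod_cast h2
  have p2 : (3 + 2 * √2) ^ (n - c Finset.univ) ≤ (2 : ℝ) ^ m → T 1 1 ≤ T 0 2 := by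
    intro h
    rw [hr] at h
    have h1 := primal (grank e).dual (dual_single e c hc hbr) (by
      rw [RankFn.dual_r_univ, Fintype.card_fin]
      have e1 : m - (m - (grank e).r Finset.univ) = (grank e).r Finset.univ := by omega
      rw [e1]
      exact h)
    rw [TT_dual, TT_dual] at h1
    have h2 : ((T 1 1 : ℤ) : ℝ) ≤ ((T 0 2 : ℤ) : ℝ) := by
      rw [hT', hT']
      push_cast
      exact h1
    exact_mod_cast h2
  refine ⟨p1, p2, ?_⟩
  intro h
  rw [hr] at p1 p2 h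
  set r := (grank e).r Finset.univ
  rcases h with h | h
  · apply le_max_of_le_left
    apply p1
    have h7 := pow_aux (k := m - r) (r := r) (by omega)
    have e1 : r + (m - r) = m := by omega
    rwa [e1] at h7
  · apply le_max_of_le_right
    apply p2
    have h7 := pow_aux (k := r) (r := m - r) (by omega)
    have e1 : m - r + r = m := by omega
    rwa [e1] at h7

end Pool.Agent.Results.MP_4d7355_co.DensityThresholds
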