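import Pool.Agent.Lib_MP_4d7355_co.ProdE

/-!
# MP_4d7355_co: the product inequality with the optimal matroid constant
-/

namespace Pool.Agent.Results.MP_4d7355_co.SharpProduct

open Pool.Agent.MW

/-- Let `G` be a finite multigraph with `m` edges, without loops and bridges. For all real `b ≥ 2`
and `0 ≤ κ ≤ 1` with `9 (b - 1) κ ^ 2 ≤ b ^ 3`,
`κ ^ m * T(G; 1, 1) ^ 2 ≤ T(G; b, 0) * T(G; 0, b)`.
For `b ≥ 2.2267` one may take `κ = 1`; for `b = 2` one may take `κ ^ 2 = 8 / 9`. -/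
theorem result :
    ∀ (n m : ℕ) (e : Fin m → Fin n × Fin n) (c : Finset (Fin m) → ℕ) (T : ℝ → ℝ → ℝ),
      (∀ A : Finset (Fin m),
        c A = Nat.card (SimpleGraph.fromRel (fun a b : Fin n => ∃ j ∈ A, e j = (a, b))).ConnectedComponent) →
      (∀ x y : ℝ, T x y = ∑ A ∈ (Finset.univ : Finset (Fin m)).powerset,
        (x - 1) ^ ((n - c Finset.univ) - (n - c A)) * (y - 1) ^ (A.card - (n - c A))) →
      (∀ i : Fin m, (e i).1 ≠ (e i).2) →
      (∀ i : Fin m, c (Finset.univ.erase i) = c Finset.univ) →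
      ∀ b κ : ℝ, 2 ≤ b → 0 ≤ κ → κ ≤ 1 → 9 * (b - 1) * κ ^ 2 ≤ b ^ 3 →
        κ ^ m * T 1 1 ^ 2 ≤ T b 0 * T 0 b := by
  intro n m e c T hc hT hl hbr b κ hb hκ0 hκ1 h9
  have hT' := T_real e c T hc hT
  rw [hT', hT', hT']
  have h := TT_product (grank e) (fun i => grank_single e (hl i)) (by
    intro i
    have h1 := c_add e c hc (Finset.univ.erase i)
    have h2 := c_add e c hc Finset.univ
    rw [hbr i] at h1
    omega) hb hκ0 hκ1 h9
  rwa [Fintype.card_fin] at h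

end Pool.Agent.Results.MP_4d7355_co.SharpProduct
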