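import Pool.Agent.Lib_MP_4d7355_co.GraphDeg

/-!
# MP_4d7355_co: density thresholds for simple graphs and for graphs without 2-edge cuts
-/

namespace Pool.Agent.Results.MP_4d7355_co.SimpleDensity

open Pool.Agent.MW

theorem cube_bounds {t : ℝ} (ht : t ^ 3 = 2) : 1.2599 < t ∧ t < 1.25993 := by
  have ht0 : 0 < t := by
    by_contra hneg
    push Not at hneg
    have : t ^ 3 ≤ 0 := by
      have h1 : t ^ 3 = t * t ^ 2 := by ring
      rw [h1]
      exact mul_nonpos_of_nonpos_of_nonneg hneg (sq_nonneg t)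
    linarith
  constructor
  · by_contra hneg
    push Not at hneg
    have h1 : t ^ 3 ≤ 1.2599 ^ 3 := pow_le_pow_left₀ ht0.le hneg 3
    rw [ht] at h1
    norm_num at h1
  · by_contra hneg
    push Not at hneg
    have h1 : 1.25993 ^ 3 ≤ t ^ 3 := pow_le_pow_left₀ (by norm_num) hneg 3
    rw [ht] at h1
    norm_num at h1

theorem pow_aux {t : ℝ} (ht : t ^ 3 = 2) {k r : ℕ} (h : 30 * k ≤ 23 * r) :
    1 ≤ t ^ r * (2 - t) ^ k := by
  obtain ⟨h1, h2⟩ := cube_bounds ht
  have h3 : 0 < 2 - t := by linarith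
  have h4 : 2 - t ≤ 1 := by linarith
  have h5 : (1 : ℝ) / 1024 ≤ (2 - t) ^ 23 := by
    calc (1 : ℝ) / 1024 ≤ 0.74007 ^ 23 := by norm_num
      _ ≤ (2 - t) ^ 23 := pow_le_pow_left₀ (by norm_num) (by linarith) _
  have h6 : t ^ 30 = 1024 := by
    have : t ^ 30 = (t ^ 3) ^ 10 := by ring
    rw [this, ht]
    norm_num
  have h7 : (1 : ℝ) ^ 30 ≤ (t ^ r * (2 - t) ^ k) ^ 30 := by
    rw [mul_pow, ← pow_mul, ← pow_mul, mul_comm r 30, mul_comm k 30, pow_mul t, h6]
    have h8 : (2 - t) ^ (23 * r) ≤ (2 - t) ^ (30 * k) :=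
      pow_le_pow_of_le_one h3.le h4 h
    have h9 : (1 / 1024) ^ r ≤ (2 - t) ^ (23 * r) := by
      rw [pow_mul]
      exact pow_le_pow_left₀ (by norm_num) h5 _
    calc (1 : ℝ) ^ 30 = 1024 ^ r * (1 / 1024) ^ r := by
          rw [← mul_pow]
          norm_num
      _ ≤ 1024 ^ r * (2 - t) ^ (30 * k) :=
          mul_le_mul_of_nonneg_left (h9.trans h8) (by positivity)
  exact (pow_le_pow_iff_left₀ (by norm_num) (by positivity) (by norm_num)).1 h7

/-- the primal inequality for a rank function -/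
theorem primal {m : ℕ} (R : RankFn (Fin m)) (hl : ∀ i, R.r {i} = 1)
    (hs : ∀ i j, i ≠ j → R.r {i, j} = 2) {t : ℝ} (ht : t ^ 3 = 2)
    (h : 1 ≤ t ^ R.r Finset.univ * (2 - t) ^ (m - R.r Finset.univ)) : TT R 1 1 ≤ TT R 2 0 := by
  obtain ⟨h1, h2⟩ := cube_bounds ht
  have h3 := simple_bound_two R hl hs ht
  rw [Fintype.card_fin] at h3
  have h4 : (1 : ℝ) ≤ 2 / t := by
    rw [le_div_iff₀ (by linarith)]
    linarith
  have h5 := TT_one_le R h4
  have h6 : 0 ≤ TT R (2 / t) 1 := TT_one_nonneg R h4 le_rfl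
  have h7 : 1 * TT R (2 / t) 1 ≤
      t ^ R.r Finset.univ * (2 - t) ^ (m - R.r Finset.univ) * TT R (2 / t) 1 :=
    mul_le_mul_of_nonneg_right h h6
  linarith

/-- Let `G` be a finite multigraph with `m` edges and rank `r`, and `t` the cube root of 2.
If `G` is simple and `1 ≤ t ^ r * (2 - t) ^ (m - r)` (which holds if `m ≤ (53 / 30) r`), then
`T(G; 1, 1) ≤ T(G; 2, 0)`. If `G` has no bridge and no 2-edge cut and
`1 ≤ t ^ (m - r) * (2 - t) ^ r` (which holds if `m ≥ (53 / 23) r`), then
`T(G; 1, 1) ≤ T(G; 0, 2)`. In particular this holds if `G` has no loop and the removal of at most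
four edges never increases the number of components. -/
theorem result :
    ∀ (n m : ℕ) (e : Fin m → Fin n × Fin n) (c : Finset (Fin m) → ℕ) (T : ℤ → ℤ → ℤ),
      (∀ A : Finset (Fin m),
        c A = Nat.card (SimpleGraph.fromRel (fun a b : Fin n => ∃ j ∈ A, e j = (a, b))).ConnectedComponent) →
      (∀ x y : ℤ, T x y = ∑ A ∈ (Finset.univ : Finset (Fin m)).powerset,
        (x - 1) ^ ((n - c Finset.univ) - (n - c A)) * (y - 1) ^ (A.card - (n - c A))) →
      ∀ t : ℝ, t ^ 3 = 2 →
      ((∀ i : Fin m, (e i).1 ≠ (e i).2) →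
        (∀ i j : Fin m, i ≠ j → e i ≠ e j ∧ e i ≠ (e j).swap) →
        (1 ≤ t ^ (n - c Finset.univ) * (2 - t) ^ (m - (n - c Finset.univ)) ∨
          30 * m ≤ 53 * (n - c Finset.univ)) →
        T 1 1 ≤ T 2 0) ∧
      ((∀ i j : Fin m, c ((Finset.univ.erase i).erase j) = c Finset.univ) →
        (1 ≤ t ^ (m - (n - c Finset.univ)) * (2 - t) ^ (n - c Finset.univ) ∨
          53 * (n - c Finset.univ) ≤ 23 * m) →
        T 1 1 ≤ T 0 2) ∧
      ((∀ i : Fin m, (e i).1 ≠ (e i).2) →
        (∀ A : Finset (Fin m), A.card ≤ 4 → c (Finset.univ \ A) = c Finset.univ) →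
        T 1 1 ≤ T 0 2) := by
  intro n m e c T hc hT t ht
  have hT' := T_int e c T hc hT
  have hr := exp_eq e c hc Finset.univ
  have h6 : (grank e).r Finset.univ ≤ m := by
    have := (grank e).le_card Finset.univ
    rwa [Finset.card_univ, Fintype.card_fin] at this
  rw [hr]
  have part2 : (∀ i j : Fin m, c ((Finset.univ.erase i).erase j) = c Finset.univ) →
        (1 ≤ t ^ (m - (grank e).r Finset.univ) * (2 - t) ^ (grank e).r Finset.univ ∨
          53 * (grank e).r Finset.univ ≤ 23 * m) →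
        T 1 1 ≤ T 0 2 := by
    intro hb h
    have h' : 1 ≤ t ^ (m - (grank e).r Finset.univ) * (2 - t) ^ (grank e).r Finset.univ := by
      rcases h with h | h
      · exact h
      · exact pow_aux ht (by omega)
    have hb1 : ∀ i : Fin m, c (Finset.univ.erase i) = c Finset.univ := by
      intro i
      have := hb i i
      rwa [Finset.erase_idem] at this
    have h1 := primal (grank e).dual (dual_single e c hc hb1) (dual_pair e c hc hb) ht (by
      rw [RankFn.dual_r_univ, Fintype.card_fin]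
      have e1 : m - (m - (grank e).r Finset.univ) = (grank e).r Finset.univ := by omega
      rw [e1]
      exact h')
    rw [TT_dual, TT_dual] at h1
    have h2 : ((T 1 1 : ℤ) : ℝ) ≤ ((T 0 2 : ℤ) : ℝ) := by
      rw [hT', hT']
      push_cast
      exact h1
    exact_mod_cast h2
  refine ⟨?_, part2, ?_⟩
  · intro hl hs h
    have h' : 1 ≤ t ^ (grank e).r Finset.univ * (2 - t) ^ (m - (grank e).r Finset.univ) := by
      rcases h with h | h
      · exact h
      · exact pow_aux ht (by omega)
    have h1 := primal (grank e) (fun i => grank_single e (hl i))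
      (fun i j hij => grank_pair e (hl i) (hl j) (hs i j hij).1 (hs i j hij).2) ht h'
    have h2 : ((T 1 1 : ℤ) : ℝ) ≤ ((T 2 0 : ℤ) : ℝ) := by
      rw [hT', hT']
      push_cast
      exact h1
    exact_mod_cast h2
  · intro hl h5
    apply part2
    · intro i j
      have e1 : (Finset.univ.erase i).erase j = Finset.univ \ {i, j} := by
        ext x
        simp only [Finset.mem_erase, Finset.mem_univ, Finset.mem_sdiff, Finset.mem_insert,
          Finset.mem_singleton]
        tauto
      rw [e1]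
      apply h5
      have := Finset.card_le_two (a := i) (b := j)
      omega
    · right
      have h7 := five_rank_le e hl (by
        intro A hA
        have h8 := c_add e c hc (Finset.univ \ A)
        have h9 := c_add e c hc Finset.univ
        have h10 := h5 A hA
        omega)
      omega

end Pool.Agent.Results.MP_4d7355_co.SimpleDensity
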