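import Pool.Agent.Lib_MP_4d7355_co.ProdF

/-!
# MP_4d7355_co: graphs whose parallel or series classes have at least three edges
-/

namespace Pool.Agent.Results.MP_4d7355_co.ThreeClasses

open Pool.Agent.MW

variable {n m : ℕ}

theorem grank_parallel (e : Fin m → Fin n × Fin n) {i j : Fin m} (hi : (e i).1 ≠ (e i).2)
    (h : e j = e i ∨ e j = (e i).swap) : (grank e).r {i, j} = 1 := by
  have h1 : evec e j ∈ esp e {i} := by
    have h2 : evec e i ∈ esp e {i} := evec_mem e (by simp)
    rcases h with h | h
    · have : evec e j = evec e i := by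
        unfold evec
        rw [h]
      rw [this]
      exact h2
    · have : evec e j = -evec e i := by
        unfold evec
        rw [h, Prod.fst_swap, Prod.snd_swap, neg_sub]
      rw [this]
      exact Submodule.neg_mem _ h2
  have h2 : esp e {i, j} ≤ esp e {i} := by
    have h3 : ({i, j} : Finset (Fin m)) = {i} ∪ {j} := rfl
    rw [h3, esp_union]
    apply sup_le le_rfl
    unfold esp
    rw [Finset.image_singleton, Finset.coe_singleton, Submodule.span_singleton_le_iff_mem]
    exact h1
  have h3 : (grank e).r {i, j} ≤ (grank e).r {i} := Submodule.finrank_mono h2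
  have h4 := grank_single e hi
  have h5 := (grank e).r_single_le_insert i {j}
  omega

/-- Let `G` be a finite multigraph without loops and bridges such that every edge is in a class of at
least three parallel edges, or in a series class (edges pairwise forming 2-edge cuts) of at
least three edges. Then `T(G; 1, 1) ^ 2 ≤ T(G; 2, 0) * T(G; 0, 2)`, hence
`T(G; 1, 1) ≤ max (T(G; 2, 0)) (T(G; 0, 2))`. -/
theorem result :
    ∀ (n m : ℕ) (e : Fin m → Fin n × Fin n) (c : Finset (Fin m) → ℕ) (T : ℤ → ℤ → ℤ),
      (∀ A : Finset (Fin m),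
        c A = Nat.card (SimpleGraph.fromRel (fun a b : Fin n => ∃ j ∈ A, e j = (a, b))).ConnectedComponent) →
      (∀ x y : ℤ, T x y = ∑ A ∈ (Finset.univ : Finset (Fin m)).powerset,
        (x - 1) ^ ((n - c Finset.univ) - (n - c A)) * (y - 1) ^ (A.card - (n - c A))) →
      (∀ i : Fin m, (e i).1 ≠ (e i).2) →
      (∀ i : Fin m, c (Finset.univ.erase i) = c Finset.univ) →
      (∀ i : Fin m,
        3 ≤ (Finset.univ.filter (fun j : Fin m => e j = e i ∨ e j = (e i).swap)).card ∨
        3 ≤ (Finset.univ.filter (fun j : Fin m =>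
          j = i ∨ c ((Finset.univ.erase i).erase j) ≠ c Finset.univ)).card) →
      T 1 1 ^ 2 ≤ T 2 0 * T 0 2 ∧ T 1 1 ≤ max (T 2 0) (T 0 2) := by
  intro n m e c T hc hT hl hbr hcl
  have hT' := T_int e c T hc hT
  have hL : LL (grank e) Finset.univ := fun i _ => grank_single e (hl i)
  have hC : CL (grank e) Finset.univ := by
    intro i _
    have h1 := c_add e c hc (Finset.univ.erase i)
    have h2 := c_add e c hc Finset.univ
    rw [hbr i] at h1
    omega
  have hD : D3 (grank e) Finset.univ := by
    intro i _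
    rcases hcl i with h | h
    · left
      refine h.trans (Finset.card_le_card ?_)
      intro j hj
      rw [mem_pc]
      exact ⟨Finset.mem_univ _, grank_parallel e (hl i) (Finset.mem_filter.1 hj).2⟩
    · right
      refine h.trans (Finset.card_le_card ?_)
      intro j hj
      rw [mem_sc]
      refine ⟨Finset.mem_univ _, ?_⟩
      rcases (Finset.mem_filter.1 hj).2 with h1 | h1
      · exact Or.inl h1
      · right
        have h2 := c_add e c hc ((Finset.univ.erase i).erase j)
        have h3 := c_add e c hc Finset.univ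
        have h4 := (grank e).mono ((Finset.univ.erase i).erase j) Finset.univ
          (Finset.subset_univ _)
        omega
  have hg := product_D3 _ (grank e) Finset.univ rfl hL hC hD
  unfold Good at hg
  rw [nb_eq_TT, Finset.card_univ] at hg
  have h1 := VT_eq_TT (grank e) (b := 2) (by norm_num)
  have h2 := VD_eq_TT (grank e) (b := 2) (by norm_num)
  have e1 : (2 : ℝ) - 1 = 1 := by norm_num
  rw [e1, one_pow, one_pow, mul_one, one_mul] at h1 h2
  have h3 : ((T 1 1 : ℤ) : ℝ) ^ 2 ≤ ((T 2 0 : ℤ) : ℝ) * ((T 0 2 : ℤ) : ℝ) := by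
    rw [hT', hT', hT']
    push_cast
    rw [← h1, ← h2]
    set M := Fintype.card (Fin m) with hM
    have h4 : ((1 : ℝ) * (1 / 2 * (1 - 1 / 2))) ^ M = 1 / (2 ^ M * 2 ^ M) := by
      rw [← mul_pow]
      norm_num
      rw [← inv_pow]
      norm_num
    rw [h4] at hg
    have h5 : (0 : ℝ) < 2 ^ M * 2 ^ M := by positivity
    have h6 := mul_le_mul_of_nonneg_left hg h5.le
    have h7 : (2 ^ M * 2 ^ M) * (1 / (2 ^ M * 2 ^ M) * TT (grank e) 1 1 ^ 2) =
        TT (grank e) 1 1 ^ 2 := by
      field_simp
    rw [h7] at h6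
    refine h6.trans (le_of_eq ?_)
    ring
  have h4 : T 1 1 ^ 2 ≤ T 2 0 * T 0 2 := by exact_mod_cast h3
  refine ⟨h4, ?_⟩
  have hA : (0 : ℝ) ≤ ((T 2 0 : ℤ) : ℝ) := by
    rw [hT']
    push_cast
    exact TT_nonneg _ (by norm_num)
  have hB : (0 : ℝ) ≤ ((T 0 2 : ℤ) : ℝ) := by
    rw [hT']
    push_cast
    rw [← TT_dual]
    exact TT_nonneg _ (by norm_num)
  have hA' : 0 ≤ T 2 0 := by exact_mod_cast hA
  have hB' : 0 ≤ T 0 2 := by exact_mod_cast hB
  by_contra hneg
  push Not at hneg
  have h5 := lt_of_le_of_lt (le_max_left (T 2 0) (T 0 2)) hneg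
  have h6 := lt_of_le_of_lt (le_max_right (T 2 0) (T 0 2)) hneg
  nlinarith

end Pool.Agent.Results.MP_4d7355_co.ThreeClasses
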